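import Pool.Agent.Helper66.SB.Goals

/-!
# Project SB, packet DEC: decomposition along `F`
-/

set_option autoImplicit false

open Module MvPolynomial

noncomputable section

namespace Pool.Agent.Helper90.SB

open Pool.Agent.Helper66.SB Helper18.Shgh

theorem gDEC : G_DEC := by
  intro F W hF hfd hW
  have hinj : Function.Injective (LinearMap.mulLeft ℂ F : R2 →ₗ[ℂ] R2) := by
    intro a b hab
    have h1 : F * a = F * b := hab
    exact mul_left_cancel₀ hF h1
  let FW : ℕ → Submodule ℂ R2 := fun i => (W i).map (LinearMap.mulLeft ℂ F)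
  have hFW : ∀ i, FW i ≤ W (i + 1) := by
    intro i v hv
    obtain ⟨G, hG, rfl⟩ := hv
    exact (hW i G).2 hG
  have hq : ∀ i, ∃ q : Submodule ℂ R2, IsCompl (FW i) q := fun i => exists_isCompl (FW i)
  choose q hq using hq
  let U : ℕ → Submodule ℂ R2 := fun i => match i with
    | 0 => W 0
    | i + 1 => q i ⊓ W (i + 1)
  have hU1 : ∀ i, U (i + 1) = q i ⊓ W (i + 1) := fun _ => rfl
  have hsup : ∀ i, FW i ⊔ U (i + 1) = W (i + 1) := by
    intro i
    rw [hU1, ← sup_inf_assoc_of_le (q i) (hFW i), (hq i).sup_eq_top, top_inf_eq]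
  have hinf : ∀ i, FW i ⊓ U (i + 1) = ⊥ := by
    intro i
    rw [hU1, ← inf_assoc, (hq i).inf_eq_bot, bot_inf_eq]
  have hUW : ∀ i, U i ≤ W i := by
    intro i
    cases i with
    | zero => exact le_rfl
    | succ i => exact inf_le_right
  refine ⟨U, hUW, rfl, ?_, ?_, ?_⟩
  · intro i
    haveI := hfd i
    haveI := hfd (i + 1)
    haveI h1 : FiniteDimensional ℂ (FW i) := Submodule.finiteDimensional_of_le (hFW i)
    haveI h2 : FiniteDimensional ℂ (U (i + 1)) := Submodule.finiteDimensional_of_le (hUW (i + 1))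
    have h3 := Submodule.finrank_sup_add_finrank_inf_eq (FW i) (U (i + 1))
    rw [hsup, hinf, finrank_bot, add_zero] at h3
    have h4 : finrank ℂ (FW i) = finrank ℂ (W i) :=
      (LinearEquiv.finrank_eq (Submodule.equivMapOfInjective _ hinj (W i))).symm
    omega
  · intro i v hv hdvd
    obtain ⟨G, rfl⟩ := hdvd
    have h1 : F * G ∈ W (i + 1) := hUW _ hv
    have h2 : G ∈ W i := (hW i G).1 h1
    have h3 : F * G ∈ FW i := ⟨G, h2, rfl⟩
    have h4 : F * G ∈ FW i ⊓ U (i + 1) := ⟨h3, hv⟩
    rw [hinf] at h4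
    exact h4
  · intro m t ht
    have hC : ∀ i (f : R2), C (t i) * (C (t i)⁻¹ * f) = f := by
      intro i f
      rw [← mul_assoc, ← C_mul, mul_inv_cancel₀ (ht i), C_1, one_mul]
    have hCm : ∀ (S : Submodule ℂ R2) (a : ℂ) (f : R2), f ∈ S → C a * f ∈ S := by
      intro S a f hf
      rw [C_mul']
      exact S.smul_mem a hf
    induction m with
    | zero =>
      intro f hf
      refine ⟨fun _ => C (t 0)⁻¹ * f, ?_, ?_⟩
      · intro i
        have h0 : (i : ℕ) = 0 := by omega
        rw [h0]
        exact hCm _ _ _ hf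
      · rw [Fin.sum_univ_one]
        simp only [Fin.val_zero, Nat.sub_self, pow_zero, mul_one]
        rw [hC]
    | succ m ih =>
      intro f hf
      rw [← hsup m] at hf
      obtain ⟨v, hv, u, hu, hvu⟩ := Submodule.mem_sup.1 hf
      obtain ⟨f', hf', rfl⟩ := hv
      obtain ⟨g, hg, hfg⟩ := ih f' hf'
      refine ⟨Fin.snoc (α := fun _ => R2) g (C (t (m + 1))⁻¹ * u), ?_, ?_⟩
      · intro i
        refine Fin.lastCases ?_ (fun j => ?_) i
        · rw [Fin.snoc_last]
          exact hCm _ _ _ hu
        · rw [Fin.snoc_castSucc]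
          exact hg j
      · rw [Fin.sum_univ_castSucc]
        simp only [Fin.snoc_last, Fin.snoc_castSucc, Fin.val_last, Fin.val_castSucc, Nat.sub_self,
          pow_zero, mul_one]
        rw [hC, ← hvu]
        congr 1
        show F * f' = _
        conv_lhs => rw [hfg]
        rw [Finset.mul_sum]
        apply Finset.sum_congr rfl
        intro i _
        have h1 : m + 1 - (i : ℕ) = (m - (i : ℕ)) + 1 := by
          have := i.2
          omega
        rw [h1, pow_succ]
        ring

end Pool.Agent.Helper90.SB
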